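import Pool.Agent.H4.FV.OddT

set_option autoImplicit false
set_option linter.all false

/-! The choice of the central generators (task ODD-CEN of helper4), by helper71. -/

namespace Pool.Agent.H71.FV

open Pool.Agent.R620.GG
open Pool.Agent.H4.FV.Odd

section

variable {p : ℕ} {A : Type} [NonUnitalNonAssocRing A] [Module (ZMod p) A]

theorem cen_smul_mul (c : ZMod p) (x y : A) : (c • x) * y = c • (x * y) :=
  ZMod.map_smul (AddMonoidHom.mulRight y) c x

theorem cen_mul_smul (c : ZMod p) (x y : A) : x * (c • y) = c • (x * y) :=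
  ZMod.map_smul (AddMonoidHom.mulLeft x) c y

/-- the submodule of central elements -/
def Zc (p : ℕ) (A : Type) [NonUnitalNonAssocRing A] [Module (ZMod p) A] : Submodule (ZMod p) A where
  carrier := {z | Ct z}
  zero_mem' := fun x => zero_mul x
  add_mem' := fun {a b} ha hb x => by rw [add_mul, ha x, hb x, add_zero]
  smul_mem' := fun c a ha x => by rw [cen_smul_mul, ha x, smul_zero]

theorem mem_Zc {x : A} : x ∈ Zc p A ↔ Ct x := Iff.rfl

/-- the linear map `bil` -/
noncomputable def bl' (p : ℕ) {A : Type} [NonUnitalNonAssocRing A] [Module (ZMod p) A] {B : Type}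
    (s : B → A) : ((B × B) →₀ ZMod p) →ₗ[ZMod p] A :=
  Finsupp.linearCombination (ZMod p) (fun q : B × B => s q.1 * s q.2)

theorem bl'_eq {B : Type} (s : B → A) (M : (B × B) →₀ ZMod p) : bl' p s M = bil p s M := rfl

theorem ct_symm (hA : Alt2 A) {z : A} (hz : Ct z) (x : A) : x * z = 0 := by
  rw [hA.anti, hz x, neg_zero]

/-- products of linear combinations -/
theorem lin_mul {B : Type} (s : B → A) (c d : B →₀ ZMod p) :
    Finsupp.linearCombination (ZMod p) s c * Finsupp.linearCombination (ZMod p) s d ∈
      LinearMap.range (bl' p s) := by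
  rw [Finsupp.linearCombination_apply, Finsupp.linearCombination_apply, Finsupp.sum, Finsupp.sum,
    Finset.sum_mul]
  refine Submodule.sum_mem _ fun b _ => ?_
  rw [Finset.mul_sum]
  refine Submodule.sum_mem _ fun b' _ => ?_
  rw [cen_smul_mul, cen_mul_smul]
  refine Submodule.smul_mem _ _ (Submodule.smul_mem _ _ ?_)
  exact ⟨Finsupp.single (b, b') 1, by
    rw [bl', Finsupp.linearCombination_single, one_smul]⟩

theorem mul_mem {B : Type} (s : B → A) (hA : Alt2 A)
    (hs : ∀ x : A, ∃ c : B →₀ ZMod p, Ct (x - Finsupp.linearCombination (ZMod p) s c)) (x y : A) :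
    x * y ∈ LinearMap.range (bl' p s) := by
  obtain ⟨c, hc⟩ := hs x
  obtain ⟨d, hd⟩ := hs y
  have h1 : x * y = Finsupp.linearCombination (ZMod p) s c *
      Finsupp.linearCombination (ZMod p) s d := by
    have h2 := hc y
    have h3 := ct_symm hA hd (Finsupp.linearCombination (ZMod p) s c)
    rw [sub_mul, sub_eq_zero] at h2
    rw [mul_sub, sub_eq_zero] at h3
    rw [h2, h3]
  rw [h1]
  exact lin_mul s c d

/-- the elements of the range are sums of products -/
theorem range_sum {B : Type} (s : B → A) (M : (B × B) →₀ ZMod p) :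
    ∃ (m : ℕ) (x y : Fin m → A), bil p s M = ∑ j, x j * y j := by
  classical
  let e := M.support.equivFin
  refine ⟨M.support.card, fun j => M (e.symm j).1 • s (e.symm j).1.1,
    fun j => s (e.symm j).1.2, ?_⟩
  rw [bil, Finsupp.sum]
  rw [← Finset.sum_coe_sort M.support (fun q => M q • (s q.1 * s q.2))]
  rw [← e.symm.sum_comp]
  exact Finset.sum_congr rfl fun j _ => (cen_smul_mul _ _ _).symm

theorem range_le {B : Type} (s : B → A) (hA : Alt2 A) : LinearMap.range (bl' p s) ≤ Zc p A := by
  rintro _ ⟨M, rfl⟩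
  rw [bl', Finsupp.linearCombination_apply, Finsupp.sum]
  exact Submodule.sum_mem _ fun q _ => Submodule.smul_mem _ _ fun x => hA.nil _ _ _

end

theorem cen : S_cen := by
  intro p hp _ A _ _ B s hA hs
  classical
  -- the complement of the products in the centre
  let A2 : Submodule (ZMod p) (Zc p A) := (LinearMap.range (bl' p s)).comap (Zc p A).subtype
  have hA2 : ∀ x : Zc p A, x ∈ A2 ↔ (x : A) ∈ LinearMap.range (bl' p s) := fun x => Iff.rfl
  obtain ⟨W, hW⟩ := exists_isCompl A2
  let b := Module.Basis.ofVectorSpace (ZMod p) W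
  let z : ↥(Module.Basis.ofVectorSpaceIndex (ZMod p) W) → A := fun d => ((b d : W) : Zc p A)
  have hz : ∀ c : ↥(Module.Basis.ofVectorSpaceIndex (ZMod p) W) →₀ ZMod p,
      Finsupp.linearCombination (ZMod p) z c =
        ((Finsupp.linearCombination (ZMod p) b c : W) : Zc p A) := by
    intro c
    rw [Finsupp.linearCombination_apply, Finsupp.linearCombination_apply, Finsupp.sum, Finsupp.sum,
      Submodule.coe_sum, Submodule.coe_sum]
    rfl
  have hind : ∀ (c : ↥(Module.Basis.ofVectorSpaceIndex (ZMod p) W) →₀ ZMod p)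
      (M : (B × B) →₀ ZMod p), Finsupp.linearCombination (ZMod p) z c = bil p s M → c = 0 := by
    intro c M h
    rw [hz] at h
    have h1 : ((Finsupp.linearCombination (ZMod p) b c : W) : Zc p A) ∈ A2 := by
      rw [hA2, h]
      exact ⟨M, rfl⟩
    have h2 : ((Finsupp.linearCombination (ZMod p) b c : W) : Zc p A) = 0 :=
      Submodule.disjoint_def.mp hW.disjoint _ h1 (Submodule.coe_mem _)
    have h3 : Finsupp.linearCombination (ZMod p) b c = 0 := Subtype.ext h2
    exact linearIndependent_iff.mp b.linearIndependent c h3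
  have hdec : ∀ x : Zc p A, ∃ a ∈ A2, ∃ w : W, x = a + (w : Zc p A) := by
    intro x
    have h1 : x ∈ A2 ⊔ W := by rw [hW.sup_eq_top]; trivial
    obtain ⟨a, ha, w, hw, rfl⟩ := Submodule.mem_sup.mp h1
    exact ⟨a, ha, ⟨w, hw⟩, rfl⟩
  refine ⟨↥(Module.Basis.ofVectorSpaceIndex (ZMod p) W), z, ?_, hind, ?_, ?_⟩
  · exact fun d => ((b d : W) : Zc p A).2
  · intro x hx
    obtain ⟨a, ha, w, hxw⟩ := hdec ⟨x, hx⟩
    obtain ⟨M, hM⟩ := (hA2 a).mp ha
    refine ⟨b.repr w, M, ?_⟩
    rw [hz, b.linearCombination_repr, ← bl'_eq, hM]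
    have h1 := congrArg Subtype.val hxw
    rw [Submodule.coe_add] at h1
    rw [add_comm]
    exact h1
  · intro n
    constructor
    · rintro ⟨u, hu, hi⟩
      choose a ha w hw using fun i => hdec ⟨u i, hu i⟩
      have hli : LinearIndependent (ZMod p) w := by
        rw [Fintype.linearIndependent_iff]
        intro g hg i
        by_contra hgi
        have h1 : (∑ i, g i • (a i : A)) ∈ LinearMap.range (bl' p s) :=
          Submodule.sum_mem _ fun i _ => Submodule.smul_mem _ _ ((hA2 _).mp (ha i))
        obtain ⟨M, hM⟩ := h1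
        obtain ⟨m, x, y, hxy⟩ := range_sum s M
        apply hi g ⟨i, hgi⟩ m x y
        rw [← hxy, ← bl'_eq, hM, lcA]
        have h2 : ∀ i, u i = (a i : A) + ((w i : Zc p A) : A) := fun i =>
          congrArg Subtype.val (hw i)
        have h3 : ∑ i, g i • ((w i : Zc p A) : A) = 0 := by
          have h4 := congrArg (fun t : W => ((t : Zc p A) : A)) hg
          simp only [Submodule.coe_sum, Submodule.coe_smul, Submodule.coe_zero] at h4
          exact h4
        calc ∑ i, g i • u i = ∑ i, (g i • (a i : A) + g i • ((w i : Zc p A) : A)) :=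
              Finset.sum_congr rfl fun i _ => by rw [h2 i, smul_add]
          _ = ∑ i, g i • (a i : A) := by rw [Finset.sum_add_distrib, h3, add_zero]
      have h5 := linearIndependent_le_basis b w hli
      obtain ⟨f⟩ := Cardinal.le_def _ _ |>.mp h5
      exact ⟨f, f.injective⟩
    · rintro ⟨f, hf⟩
      refine ⟨fun i => z (f i), fun i => ((b (f i) : W) : Zc p A).2, ?_⟩
      rintro c ⟨i, hci⟩ m x y h
      have h1 : (∑ j, x j * y j) ∈ LinearMap.range (bl' p s) :=
        Submodule.sum_mem _ fun j _ => mul_mem s hA hs _ _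
      obtain ⟨M, hM⟩ := h1
      let c' : Fin n →₀ ZMod p := Finsupp.equivFunOnFinite.symm c
      have h2 : Finsupp.linearCombination (ZMod p) z (Finsupp.mapDomain f c') = bil p s M := by
        rw [← bl'_eq, hM, ← h, Finsupp.linearCombination_mapDomain, lcA,
          Finsupp.linearCombination_apply]
        exact Finsupp.sum_fintype c' (fun i a => a • (z ∘ f) i) (fun i => zero_smul _ _)
      have h3 := hind _ M h2
      have h4 : c' = 0 := Finsupp.mapDomain_injective hf (by rw [h3, Finsupp.mapDomain_zero])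
      apply hci
      have h5 := DFunLike.congr_fun h4 i
      exact h5

end Pool.Agent.H71.FV
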